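import Pool.Agent.Helper40.NR.Err
import Pool.Agent.Helper40.NR.Ker

/-!
# Project RC, SHARP: the error of the kernel approximation as a list of monomials (task T-D of helper40)
-/

set_option autoImplicit false

namespace Pool.Agent.Helper31.NR

open Pool.Agent.Helper40.NR

/-- factorial -/
def fct : ℕ → ℕ
  | 0 => 1
  | n + 1 => (n + 1) * fct n

theorem fct_eq : ∀ n : ℕ, fct n = n.factorial
  | 0 => rfl
  | n + 1 => by rw [fct, fct_eq n, Nat.factorial_succ]

theorem fct_pos (n : ℕ) : 0 < fct n := by rw [fct_eq]; exact n.factorial_pos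

/-- the monomials of `2/P (PA/4)^j (P (17 A² + 8 β²)/40)^T / (T! j!)` -/
def brkL (j T c d : ℕ) : ℕ → BR
  | 0 => []
  | n + 1 => ((j + 2 * (T - n), 2 * n), (c * (17 ^ (T - n) * 8 ^ n), d * (fct n * fct (T - n)))) :: brkL j T c d n

/-- the error of the kernel approximation -/
def brk (j : ℕ) (p : ℤ) (T : ℕ) : BR :=
  if T = 0 then [((j, 0), (2 * p.natAbs ^ j, p.natAbs * 4 ^ j * fct j))]
  else ((j + 2 * T, 0), (2 * p.natAbs ^ (j + 2 * T) * (640 ^ T * fct T + (17 * p.natAbs) ^ T),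
      p.natAbs * 4 ^ (j + 2 * T) * (fct T * fct (T + j)) * (640 ^ T * fct T))) ::
    brkL j T (2 * p.natAbs ^ (j + T)) (p.natAbs * 4 ^ j * 40 ^ T * fct j) (T + 1)

theorem brkL_pos {j T c d : ℕ} (hd : 0 < d) : ∀ n : ℕ, ∀ e ∈ brkL j T c d n, 0 < e.2.2
  | 0, e, h => by simp [brkL] at h
  | n + 1, e, h => by
    rw [brkL, List.mem_cons] at h
    rcases h with h | h
    · rw [h]
      have h1 := fct_pos n
      have h2 := fct_pos (T - n)
      show 0 < d * (fct n * fct (T - n))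
      positivity
    · exact brkL_pos hd n e h

theorem brk_pos {p : ℤ} (hp : p ≠ 0) (j T : ℕ) : ∀ e ∈ brk j p T, 0 < e.2.2 := by
  intro e he
  have hP : 0 < p.natAbs := Int.natAbs_pos.2 hp
  have h1 := fct_pos j
  have h2 := fct_pos T
  have h3 := fct_pos (T + j)
  unfold brk at he
  split_ifs at he with h0
  · rw [List.mem_singleton] at he
    rw [he]
    show 0 < p.natAbs * 4 ^ j * fct j
    positivity
  · rw [List.mem_cons] at he
    rcases he with he | he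
    · rw [he]
      show 0 < p.natAbs * 4 ^ (j + 2 * T) * (fct T * fct (T + j)) * (640 ^ T * fct T)
      positivity
    · exact brkL_pos (by positivity) _ e he

theorem evB_brkL (A β : ℝ) (j T c d : ℕ) : ∀ n : ℕ, evB A β (brkL j T c d n) =
    ∑ m ∈ Finset.range n, ((c * (17 ^ (T - m) * 8 ^ m) : ℕ) : ℝ) / ((d * (fct m * fct (T - m)) : ℕ) : ℝ) *
      (A ^ (j + 2 * (T - m)) * β ^ (2 * m))
  | 0 => by simp [brkL]
  | n + 1 => by
    rw [brkL, evB_cons, evB_brkL A β j T c d n, Finset.sum_range_succ, add_comm]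

theorem evB_brkL_full (A β : ℝ) (j T c d : ℕ) (hd : 0 < d) :
    evB A β (brkL j T c d (T + 1)) = (c : ℝ) / d * A ^ j * ((17 * A ^ 2 + 8 * β ^ 2) ^ T / fct T) := by
  have hd' : (d : ℝ) ≠ 0 := by exact_mod_cast hd.ne'
  have hT : (fct T : ℝ) ≠ 0 := by exact_mod_cast (fct_pos T).ne'
  rw [evB_brkL, add_comm (17 * A ^ 2), add_pow, Finset.sum_div, Finset.mul_sum]
  refine Finset.sum_congr rfl fun m hm => ?_
  have hm' : m ≤ T := Nat.lt_succ_iff.1 (Finset.mem_range.1 hm)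
  have h1 : (fct m : ℝ) ≠ 0 := by exact_mod_cast (fct_pos m).ne'
  have h2 : (fct (T - m) : ℝ) ≠ 0 := by exact_mod_cast (fct_pos (T - m)).ne'
  have h3 : (fct T : ℝ) = (T.choose m : ℝ) * fct m * fct (T - m) := by
    rw [fct_eq, fct_eq, fct_eq]
    exact_mod_cast (Nat.choose_mul_factorial_mul_factorial hm').symm
  have h4 : (T.choose m : ℝ) ≠ 0 := by
    exact_mod_cast (Nat.choose_pos hm').ne'
  rw [h3, mul_pow, mul_pow, ← pow_mul, ← pow_mul, pow_add]
  push_cast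
  field_simp

/-- the bound of helper40's kernel error -/
theorem brk_le' {A β D : ℝ} (hA : 0 ≤ A) (hA' : A ≤ 1 / 4) (hβ : 0 ≤ β) (hβ' : β ≤ 1 / 8)
    (hD : |D| = |(17 * A ^ 2 - 8 * β ^ 2) / 20|) (j : ℕ) (p : ℤ) (hp : p ≠ 0) (T : ℕ) :
    2 / |(p : ℝ)| * (if T = 0 then (|(p : ℝ)| * A / 4) ^ j / j.factorial else
      (|(p : ℝ)| * A / 4) ^ j * ((|(p : ℝ)| * |D| / 2) ^ T / (T.factorial * j.factorial) +
        (1 + (|(p : ℝ)| * |D| / 2) ^ T / T.factorial) *
          ((|(p : ℝ)| * A / 4) ^ (2 * T) / (T.factorial * (T + j).factorial)))) ≤ evB A β (brk j p T) := by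
  have hP : 0 < p.natAbs := Int.natAbs_pos.2 hp
  have hPp : |(p : ℝ)| = (p.natAbs : ℝ) := by
    rw [Nat.cast_natAbs]; push_cast; rfl
  rw [hPp]
  set P : ℕ := p.natAbs with hPdef
  have hPr : (0 : ℝ) < P := by exact_mod_cast hP
  have hPne : (P : ℝ) ≠ 0 := hPr.ne'
  unfold brk
  rw [← hPdef]
  rw [← fct_eq, ← fct_eq, ← fct_eq]
  have hj : (0 : ℝ) < fct j := by exact_mod_cast fct_pos j
  have hT : (0 : ℝ) < fct T := by exact_mod_cast fct_pos T
  have hTj : (0 : ℝ) < fct (T + j) := by exact_mod_cast fct_pos (T + j)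
  have hjne := hj.ne'
  have hTne := hT.ne'
  have hTjne := hTj.ne'
  split_ifs with h0
  · rw [evB_cons, evB_nil, add_zero]
    refine le_of_eq ?_
    push_cast
    rw [div_pow, mul_pow, pow_zero, mul_one]
    field_simp
  · rw [evB_cons, evB_brkL_full A β j T _ _ (by have := fct_pos j; positivity)]
    have hD1 : |D| ≤ (17 * A ^ 2 + 8 * β ^ 2) / 20 := by
      rw [hD, abs_le]
      constructor <;> nlinarith [sq_nonneg A, sq_nonneg β]
    have hD2 : |D| ≤ 17 / 320 := by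
      have a1 : A ^ 2 ≤ 1 / 16 := by nlinarith
      have a2 : β ^ 2 ≤ 1 / 64 := by nlinarith
      rw [hD, abs_le]
      constructor <;> nlinarith [sq_nonneg A, sq_nonneg β]
    have hD0 : 0 ≤ |D| := abs_nonneg D
    have e1 : ((P : ℝ) * |D| / 2) ^ T ≤ ((P : ℝ) / 40) ^ T * (17 * A ^ 2 + 8 * β ^ 2) ^ T := by
      rw [← mul_pow]
      apply pow_le_pow_left₀ (by positivity)
      nlinarith
    have e2 : ((P : ℝ) * |D| / 2) ^ T ≤ (17 * (P : ℝ)) ^ T / 640 ^ T := by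
      rw [← div_pow]
      apply pow_le_pow_left₀ (by positivity)
      nlinarith
    have k1 : 2 / (P : ℝ) * ((P * A / 4) ^ j * ((P * |D| / 2) ^ T / (fct T * fct j))) ≤
        ((2 * P ^ (j + T) : ℕ) : ℝ) / ((P * 4 ^ j * 40 ^ T * fct j : ℕ) : ℝ) * A ^ j *
          ((17 * A ^ 2 + 8 * β ^ 2) ^ T / fct T) := by
      calc 2 / (P : ℝ) * ((P * A / 4) ^ j * ((P * |D| / 2) ^ T / (fct T * fct j)))
          ≤ 2 / (P : ℝ) * ((P * A / 4) ^ j * ((((P : ℝ) / 40) ^ T * (17 * A ^ 2 + 8 * β ^ 2) ^ T) /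
            (fct T * fct j))) := by gcongr
        _ = _ := by
          push_cast
          rw [div_pow, mul_pow, div_pow, pow_add]
          field_simp
    have k2 : 2 / (P : ℝ) * ((P * A / 4) ^ j * ((1 + (P * |D| / 2) ^ T / fct T) *
        ((P * A / 4) ^ (2 * T) / (fct T * fct (T + j))))) ≤
        ((2 * P ^ (j + 2 * T) * (640 ^ T * fct T + (17 * P) ^ T) : ℕ) : ℝ) /
          ((P * 4 ^ (j + 2 * T) * (fct T * fct (T + j)) * (640 ^ T * fct T) : ℕ) : ℝ) *
          (A ^ (j + 2 * T) * β ^ 0) := by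
      calc 2 / (P : ℝ) * ((P * A / 4) ^ j * ((1 + (P * |D| / 2) ^ T / fct T) *
        ((P * A / 4) ^ (2 * T) / (fct T * fct (T + j)))))
          ≤ 2 / (P : ℝ) * ((P * A / 4) ^ j * ((1 + ((17 * (P : ℝ)) ^ T / 640 ^ T) / fct T) *
        ((P * A / 4) ^ (2 * T) / (fct T * fct (T + j))))) := by gcongr
        _ = _ := by
          push_cast
          rw [div_pow _ _ j, div_pow _ _ (2 * T), mul_pow _ _ j, mul_pow _ _ (2 * T), pow_add, pow_add, pow_add]
          rw [pow_zero, mul_one]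
          field_simp
    have k3 : 2 / (P : ℝ) * ((P * A / 4) ^ j * ((P * |D| / 2) ^ T / (fct T * fct j) +
        (1 + (P * |D| / 2) ^ T / fct T) * ((P * A / 4) ^ (2 * T) / (fct T * fct (T + j))))) =
        2 / (P : ℝ) * ((P * A / 4) ^ j * ((P * |D| / 2) ^ T / (fct T * fct j))) +
        2 / (P : ℝ) * ((P * A / 4) ^ j * ((1 + (P * |D| / 2) ^ T / fct T) *
        ((P * A / 4) ^ (2 * T) / (fct T * fct (T + j))))) := by ring
    rw [k3]
    linarith

/-- the bound in the form asked for -/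
theorem brk_le {A : ℝ} {B : ℂ} (hA : 0 ≤ A) (hA' : A ≤ 1 / 4) (hB : ‖B‖ ≤ 1 / 8) (j : ℕ) {p : ℤ} (hp : p ≠ 0)
    (T : ℕ) : 2 / |(p : ℝ)| * errK A B j p T ≤ evB A ‖B‖ (brk j p T) := by
  have h := brk_le' (D := dd A B) hA hA' (norm_nonneg B) hB (by rw [dd]) j p hp T
  exact h

end Pool.Agent.Helper31.NR
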